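import Pool.Agent.H6.GS2.Targets
import Pool.Agent.H93.EB.Basic

/-!
# Theorem (G): algebra of the soft threshold energy on one window
-/

set_option autoImplicit false

open Finset Pool.Agent.H6.N4D Pool.Agent.H93 Pool.Agent.H93.GS

namespace Pool.Agent.H6.GS2

/-! ## averages -/

lemma ar_add (q N n : ℕ) (F G : ℕ → ℝ) :
    ar q N n (fun m => F m + G m) = ar q N n F + ar q N n G := by
  unfold ar; rw [sum_add_distrib]; ring

lemma ar_sub (q N n : ℕ) (F G : ℕ → ℝ) :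
    ar q N n (fun m => F m - G m) = ar q N n F - ar q N n G := by
  unfold ar; rw [sum_sub_distrib]; ring

lemma ar_mul (q N n : ℕ) (c : ℝ) (F : ℕ → ℝ) :
    ar q N n (fun m => c * F m) = c * ar q N n F := by
  unfold ar; rw [← mul_sum]; ring

lemma ar_mono (q N n : ℕ) {F G : ℕ → ℝ} (h : ∀ m ∈ Ioc n (n + N), q ∣ m → F m ≤ G m) :
    ar q N n F ≤ ar q N n G := by
  unfold ar
  have : ∑ m ∈ (Ioc n (n + N)).filter (fun m => q ∣ m), F m ≤
      ∑ m ∈ (Ioc n (n + N)).filter (fun m => q ∣ m), G m :=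
    sum_le_sum fun m hm => h m (mem_filter.1 hm).1 (mem_filter.1 hm).2
  gcongr

lemma ar_congr (q N n : ℕ) {F G : ℕ → ℝ} (h : ∀ m ∈ Ioc n (n + N), q ∣ m → F m = G m) :
    ar q N n F = ar q N n G := by
  unfold ar
  rw [sum_congr rfl fun m hm => h m (mem_filter.1 hm).1 (mem_filter.1 hm).2]

lemma ar_nonneg (q N n : ℕ) {F : ℕ → ℝ} (h : ∀ m, 0 ≤ F m) : 0 ≤ ar q N n F := by
  unfold ar
  have : 0 ≤ ∑ m ∈ (Ioc n (n + N)).filter (fun m => q ∣ m), F m := sum_nonneg fun m _ => h m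
  positivity

lemma card_mul_le (q N n : ℕ) (hq : 1 ≤ q) :
    (((Ioc n (n + N)).filter (fun m => q ∣ m)).card : ℝ) * q ≤ N + q := by
  have h : ((Ioc n (n + N)).filter (fun m => q ∣ m)).card = (n + N) / q - n / q := by
    have h1 := Nat.Ioc_filter_dvd_card_eq_div (n + N) q
    have h2 := Nat.Ioc_filter_dvd_card_eq_div n q
    have h3 : (Ioc 0 (n + N)).filter (fun m => q ∣ m) =
        (Ioc 0 n).filter (fun m => q ∣ m) ∪ (Ioc n (n + N)).filter (fun m => q ∣ m) := by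
      rw [← filter_union, Ioc_union_Ioc_eq_Ioc (Nat.zero_le _) (by omega)]
    have h4 : Disjoint ((Ioc 0 n).filter (fun m => q ∣ m))
        ((Ioc n (n + N)).filter (fun m => q ∣ m)) := by
      apply disjoint_filter_filter
      rw [Finset.disjoint_left]
      intro m h5 h6
      rw [mem_Ioc] at h5 h6
      omega
    have h5 := card_union_of_disjoint h4
    rw [← h3, h1, h2] at h5
    omega
  rw [h]
  have h7 : ((n + N) / q - n / q) * q ≤ N + q := by
    have h8 : (n + N) / q * q ≤ n + N := Nat.div_mul_le_self _ _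
    have h9 : n < (n / q + 1) * q := by
      have := Nat.lt_div_mul_add (a := n) (b := q) (by omega)
      nlinarith
    rw [Nat.sub_mul]
    have : (n / q + 1) * q = n / q * q + q := by ring
    omega
  exact_mod_cast h7

lemma ar_one_le (q N n : ℕ) (hq : 1 ≤ q) (hN : 1 ≤ N) :
    ar q N n (fun _ => 1) ≤ 1 + q / N := by
  unfold ar
  rw [sum_const, nsmul_eq_mul, mul_one]
  have h := card_mul_le q N n hq
  have hN' : (0 : ℝ) < N := by exact_mod_cast hN
  rw [div_le_iff₀ hN']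
  calc _ ≤ (N : ℝ) + q := h
    _ = (1 + q / N) * N := by field_simp

lemma ac_add (q N n : ℕ) (F G : ℕ → ℂ) :
    ac q N n (fun m => F m + G m) = ac q N n F + ac q N n G := by
  unfold ac; rw [sum_add_distrib]; ring

lemma ac_sub (q N n : ℕ) (F G : ℕ → ℂ) :
    ac q N n (fun m => F m - G m) = ac q N n F - ac q N n G := by
  unfold ac; rw [sum_sub_distrib]; ring

lemma ac_mul (q N n : ℕ) (c : ℂ) (F : ℕ → ℂ) :
    ac q N n (fun m => c * F m) = c * ac q N n F := by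
  unfold ac; rw [← mul_sum]; ring

lemma ac_sum {ι : Type} (q N n : ℕ) (s : Finset ι) (F : ι → ℕ → ℂ) :
    ac q N n (fun m => ∑ i ∈ s, F i m) = ∑ i ∈ s, ac q N n (F i) := by
  unfold ac; rw [sum_comm, sum_mul, sum_div]

lemma ac_congr (q N n : ℕ) {F G : ℕ → ℂ} (h : ∀ m ∈ Ioc n (n + N), q ∣ m → F m = G m) :
    ac q N n F = ac q N n G := by
  unfold ac
  rw [sum_congr rfl fun m hm => h m (mem_filter.1 hm).1 (mem_filter.1 hm).2]

lemma ac_re (q N n : ℕ) (F : ℕ → ℂ) : (ac q N n F).re = ar q N n (fun m => (F m).re) := by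
  unfold ac ar
  have h : (∑ m ∈ (Ioc n (n + N)).filter (fun m => q ∣ m), F m) * (q : ℂ) / (N : ℂ) =
      ((q / N : ℝ) : ℂ) * ∑ m ∈ (Ioc n (n + N)).filter (fun m => q ∣ m), F m := by
    push_cast; ring
  rw [h, Complex.re_ofReal_mul, Complex.re_sum]
  ring

lemma norm_ac_le (q N n : ℕ) (F : ℕ → ℂ) : ‖ac q N n F‖ ≤ ar q N n (fun m => ‖F m‖) := by
  unfold ac ar
  rw [norm_div, norm_mul, Complex.norm_natCast, Complex.norm_natCast]
  gcongr
  exact norm_sum_le _ _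

/-! ## sums of exponentials -/

lemma conj_ee (x : ℝ) : (starRingEnd ℂ) (ee x) = ee (-x) := by
  unfold ee
  rw [← Complex.exp_conj, map_mul, Complex.conj_ofReal, Complex.conj_I]
  congr 1; push_cast; ring

lemma norm_f_le (g : Ex) (m : ℕ) : ‖g.f m‖ ≤ g.nm := by
  unfold Ex.f Ex.nm
  refine (norm_sum_le _ _).trans (le_of_eq ?_)
  exact sum_congr rfl fun i _ => by rw [norm_mul, norm_ee, mul_one]

lemma nm_nonneg (g : Ex) : 0 ≤ g.nm := sum_nonneg fun _ _ => norm_nonneg _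

/-- `g` tested against a sum of exponentials -/
lemma ac_conj (q N n : ℕ) (F : ℕ → ℂ) (h : Ex) :
    ac q N n (fun m => F m * (starRingEnd ℂ) (h.f m)) =
      ∑ i ∈ range h.k, (starRingEnd ℂ) (h.c i) * ac q N n (fun m => F m * ee (-(h.a i * m))) := by
  have h1 : (fun m : ℕ => F m * (starRingEnd ℂ) (h.f m)) =
      fun m => ∑ i ∈ range h.k, (starRingEnd ℂ) (h.c i) * (F m * ee (-(h.a i * m))) := by
    funext m
    unfold Ex.f
    rw [map_sum, mul_sum]
    exact sum_congr rfl fun i _ => by rw [map_mul, conj_ee]; ring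
  rw [h1, ac_sum]
  exact sum_congr rfl fun i _ => by rw [ac_mul]

/-- the zero sum -/
def z0 : Ex := ⟨0, fun _ => 0, fun _ => 0⟩

lemma f_z0 (m : ℕ) : z0.f m = 0 := by simp [Ex.f, z0]

lemma nm_z0 : z0.nm = 0 := by simp [Ex.nm, z0]

lemma J_z0 (th : ℝ) (lam : ℕ → ℝ) (q N n : ℕ) : J th lam q N n z0 = 0 := by
  unfold J
  rw [nm_z0]
  simp [f_z0, ar]

lemma J_le (th : ℝ) (lam : ℕ → ℝ) (q N n : ℕ) (_hth : 0 ≤ th) (hl : ∀ m, |lam m| ≤ 1)
    (hq : 1 ≤ q) (hN : 1 ≤ N) (g : Ex) : J th lam q N n g ≤ 1 + q / N - 2 * th * g.nm := by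
  unfold J
  have h1 : ar q N n (fun m => 2 * lam m * (g.f m).re - ‖g.f m‖ ^ 2) ≤
      ar q N n (fun _ => 1) := by
    apply ar_mono
    intro m _ _
    have h2 := abs_le.1 (hl m)
    have h3 : (g.f m).re ^ 2 ≤ ‖g.f m‖ ^ 2 := by
      rw [← Complex.normSq_eq_norm_sq, Complex.normSq_apply]
      nlinarith [sq_nonneg (g.f m).im]
    nlinarith [sq_nonneg (lam m - (g.f m).re), sq_nonneg (lam m)]
  linarith [ar_one_le q N n hq hN]

lemma bdd_J (th : ℝ) (lam : ℕ → ℝ) (q N n : ℕ) (hth : 0 ≤ th) (hl : ∀ m, |lam m| ≤ 1)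
    (hq : 1 ≤ q) (hN : 1 ≤ N) : BddAbove (Set.range fun g : Ex => J th lam q N n g) := by
  refine ⟨1 + q / N, ?_⟩
  rintro x ⟨g, rfl⟩
  have := J_le th lam q N n hth hl hq hN g
  have h2 := mul_nonneg hth (nm_nonneg g)
  simp only at this ⊢
  linarith

lemma J_le_En (th : ℝ) (lam : ℕ → ℝ) (q N n : ℕ) (hth : 0 ≤ th) (hl : ∀ m, |lam m| ≤ 1)
    (hq : 1 ≤ q) (hN : 1 ≤ N) (g : Ex) : J th lam q N n g ≤ En th lam q N n :=
  le_ciSup (bdd_J th lam q N n hth hl hq hN) g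

lemma En_nonneg (th : ℝ) (lam : ℕ → ℝ) (q N n : ℕ) (hth : 0 ≤ th) (hl : ∀ m, |lam m| ≤ 1)
    (hq : 1 ≤ q) (hN : 1 ≤ N) : 0 ≤ En th lam q N n := by
  rw [← J_z0 th lam q N n]; exact J_le_En th lam q N n hth hl hq hN z0

instance : Nonempty Ex := ⟨z0⟩

lemma En_le (th : ℝ) (lam : ℕ → ℝ) (q N n : ℕ) (hth : 0 ≤ th) (hl : ∀ m, |lam m| ≤ 1)
    (hq : 1 ≤ q) (hN : 1 ≤ N) : En th lam q N n ≤ 1 + q / N := by
  apply ciSup_le
  intro g
  have := J_le th lam q N n hth hl hq hN g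
  have h2 := mul_nonneg hth (nm_nonneg g)
  linarith

/-! ## strong concavity -/

lemma slk_nonneg {th : ℝ} {lam : ℕ → ℝ} {q N n : ℕ} {g : Ex} (hg : Opt th lam q N n g)
    (h : Ex) : 0 ≤ slk th lam q N n g h := by
  unfold slk
  have : ∀ j ∈ range h.k, 0 ≤ th * ‖h.c j‖ -
      ((starRingEnd ℂ) (h.c j) * rs lam q N n g (h.a j)).re := by
    intro j _
    have h1 := Complex.re_le_norm ((starRingEnd ℂ) (h.c j) * rs lam q N n g (h.a j))
    rw [norm_mul, Complex.norm_conj] at h1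
    have h2 := mul_le_mul_of_nonneg_left (hg.df (h.a j)) (norm_nonneg (h.c j))
    linarith
  have := sum_nonneg this
  linarith

/-- the residual tested against the sum itself -/
lemma rs_self {th : ℝ} {lam : ℕ → ℝ} {q N n : ℕ} {g : Ex} (hg : Opt th lam q N n g) :
    ac q N n (fun m => ((lam m : ℂ) - g.f m) * (starRingEnd ℂ) (g.f m)) = th * g.nm := by
  rw [ac_conj]
  unfold Ex.nm
  push_cast
  rw [mul_sum]
  apply sum_congr rfl
  intro i hi
  have h1 := hg.kt i (mem_range.1 hi)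
  unfold rs at h1
  rw [h1]
  have h2 : (‖g.c i‖ : ℂ) ≠ 0 := by
    exact_mod_cast norm_ne_zero_iff.2 (hg.nz i (mem_range.1 hi))
  have h3 : (starRingEnd ℂ) (g.c i) * g.c i = (‖g.c i‖ : ℂ) ^ 2 := by
    rw [mul_comm, Complex.mul_conj, Complex.normSq_eq_norm_sq]; push_cast; ring
  calc (starRingEnd ℂ) (g.c i) * (th * g.c i / ‖g.c i‖)
      = th * ((starRingEnd ℂ) (g.c i) * g.c i) / ‖g.c i‖ := by ring
    _ = th * ‖g.c i‖ := by rw [h3]; field_simp

/-- the exact second order expansion of the functional at an optimal sum -/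
theorem J_exp {th : ℝ} {lam : ℕ → ℝ} {q N n : ℕ} {g : Ex} (hg : Opt th lam q N n g) (h : Ex) :
    J th lam q N n h = En th lam q N n - d2 q N n h g - slk th lam q N n g h := by
  rw [← hg.mx]
  have h1 : ∀ m, 2 * lam m * (h.f m).re - ‖h.f m‖ ^ 2 =
      (2 * lam m * (g.f m).re - ‖g.f m‖ ^ 2) - ‖h.f m - g.f m‖ ^ 2 +
        2 * ((((lam m : ℂ) - g.f m) * (starRingEnd ℂ) (h.f m)).re -
          (((lam m : ℂ) - g.f m) * (starRingEnd ℂ) (g.f m)).re) := by
    intro m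
    rw [← Complex.normSq_eq_norm_sq, ← Complex.normSq_eq_norm_sq, ← Complex.normSq_eq_norm_sq]
    simp only [Complex.normSq_apply, Complex.sub_re, Complex.sub_im, Complex.mul_re,
      Complex.conj_re, Complex.conj_im, Complex.ofReal_re, Complex.ofReal_im]
    ring
  have h2 : ar q N n (fun m => 2 * lam m * (h.f m).re - ‖h.f m‖ ^ 2) =
      ar q N n (fun m => 2 * lam m * (g.f m).re - ‖g.f m‖ ^ 2) - d2 q N n h g +
        2 * ((ac q N n (fun m => ((lam m : ℂ) - g.f m) * (starRingEnd ℂ) (h.f m))).re -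
          (ac q N n (fun m => ((lam m : ℂ) - g.f m) * (starRingEnd ℂ) (g.f m))).re) := by
    rw [ac_re, ac_re]
    unfold d2
    rw [← ar_sub, ← ar_sub, ← ar_mul, ← ar_add]
    exact ar_congr _ _ _ fun m _ _ => h1 m
  have h3 : (ac q N n (fun m => ((lam m : ℂ) - g.f m) * (starRingEnd ℂ) (h.f m))).re =
      ∑ j ∈ range h.k, ((starRingEnd ℂ) (h.c j) * rs lam q N n g (h.a j)).re := by
    rw [ac_conj, Complex.re_sum]
    rfl
  have h4 : (ac q N n (fun m => ((lam m : ℂ) - g.f m) * (starRingEnd ℂ) (g.f m))).re =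
      th * g.nm := by
    rw [rs_self hg, ← Complex.ofReal_mul, Complex.ofReal_re]
  have h5 : slk th lam q N n g h = 2 * (th * h.nm - ∑ j ∈ range h.k,
      ((starRingEnd ℂ) (h.c j) * rs lam q N n g (h.a j)).re) := by
    unfold slk Ex.nm
    rw [sum_sub_distrib, mul_sum]
  unfold J
  rw [h2, h3, h4, h5]
  ring

/-- the energy is the mean square of the optimal sum -/
theorem En_eq {th : ℝ} {lam : ℕ → ℝ} {q N n : ℕ} {g : Ex} (hg : Opt th lam q N n g) :
    En th lam q N n = ar q N n (fun m => ‖g.f m‖ ^ 2) := by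
  rw [← hg.mx]
  unfold J
  have h4 : (ac q N n (fun m => ((lam m : ℂ) - g.f m) * (starRingEnd ℂ) (g.f m))).re =
      th * g.nm := by
    rw [rs_self hg, ← Complex.ofReal_mul, Complex.ofReal_re]
  rw [ac_re] at h4
  have h1 : ar q N n (fun m => 2 * lam m * (g.f m).re - ‖g.f m‖ ^ 2) =
      ar q N n (fun m => ‖g.f m‖ ^ 2) +
        2 * ar q N n (fun m => (((lam m : ℂ) - g.f m) * (starRingEnd ℂ) (g.f m)).re) := by
    rw [← ar_mul, ← ar_add]
    apply ar_congr
    intro m _ _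
    rw [← Complex.normSq_eq_norm_sq]
    simp only [Complex.normSq_apply, Complex.sub_re, Complex.sub_im, Complex.mul_re,
      Complex.conj_re, Complex.conj_im, Complex.ofReal_re, Complex.ofReal_im]
    ring
  rw [h1, h4]
  ring

/-- the dual bound -/
theorem En_dual {th : ℝ} {lam : ℕ → ℝ} {q N n : ℕ} (r : ℕ → ℂ)
    (hr : ∀ β : ℝ, ‖ac q N n (fun m => r m * ee (-(β * m)))‖ ≤ th) :
    En th lam q N n ≤ ar q N n (fun m => ‖(lam m : ℂ) - r m‖ ^ 2) := by
  apply ciSup_le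
  intro h
  have h1 : (ac q N n (fun m => r m * (starRingEnd ℂ) (h.f m))).re ≤ th * h.nm := by
    rw [ac_conj, Complex.re_sum]
    unfold Ex.nm
    rw [mul_sum]
    apply sum_le_sum
    intro i _
    have h2 := Complex.re_le_norm ((starRingEnd ℂ) (h.c i) *
      ac q N n (fun m => r m * ee (-(h.a i * m))))
    rw [norm_mul, Complex.norm_conj] at h2
    have h3 := mul_le_mul_of_nonneg_left (hr (h.a i)) (norm_nonneg (h.c i))
    linarith
  rw [ac_re] at h1
  unfold J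
  have h4 : ar q N n (fun m => 2 * lam m * (h.f m).re - ‖h.f m‖ ^ 2) ≤
      ar q N n (fun m => ‖(lam m : ℂ) - r m‖ ^ 2) +
        2 * ar q N n (fun m => (r m * (starRingEnd ℂ) (h.f m)).re) := by
    rw [← ar_mul, ← ar_add]
    apply ar_mono
    intro m _ _
    rw [← Complex.normSq_eq_norm_sq, ← Complex.normSq_eq_norm_sq]
    simp only [Complex.normSq_apply, Complex.sub_re, Complex.sub_im, Complex.mul_re,
      Complex.conj_re, Complex.conj_im, Complex.ofReal_re, Complex.ofReal_im]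
    nlinarith [sq_nonneg (lam m - (r m).re - (h.f m).re), sq_nonneg ((r m).im + (h.f m).im)]
  linarith

end Pool.Agent.H6.GS2
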