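import Pool.Agent.H93.GS.Targets

/-!
# Theorem (G): algebra of the soft threshold energy on one window, statements
-/

set_option autoImplicit false

open Finset Pool.Agent.H6.N4D Pool.Agent.H93 Pool.Agent.H93.GS

namespace Pool.Agent.H6.GS2

/-! ## definitions -/

/-- the slack of `h` for the optimal sum `g` -/
noncomputable def slk (th : ℝ) (lam : ℕ → ℝ) (q N n : ℕ) (g h : Ex) : ℝ :=
  2 * ∑ j ∈ range h.k, (th * ‖h.c j‖ -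
    ((starRingEnd ℂ) (h.c j) * rs lam q N n g (h.a j)).re)

/-- the frequencies are different modulo `1 / q` -/
def Dst (q : ℕ) (g : Ex) : Prop :=
  ∀ i < g.k, ∀ l < g.k, i ≠ l → 0 < nd (q * (g.a i - g.a l))

/-- the test of the prime `q` with a sum of exponentials -/
noncomputable def tx (lam : ℕ → ℝ) (q N n : ℕ) (f : Ex) : ℂ :=
  ac 1 N n (fun m => (EB.D q m : ℂ) * lam m * (starRingEnd ℂ) (f.f m))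

/-- the sum over the primes of the level `w` of the squares of the tests, the worst frequency and
the worst weights -/
noncomputable def SA (lam : ℕ → ℝ) (w n : ℕ) : ℝ :=
  sSup {x | ∃ (α : ℝ) (v : ℕ → ℕ → ℂ), (∀ q ∈ EB.QQ w, EB.BV (2 ^ w) n (v q)) ∧
    x = ∑ q ∈ EB.QQ w, 1 / (q : ℝ) * EB.zz lam q (2 ^ w) n α (v q) ^ 2}

/-- the phase of the coefficient `c` at the centre of the window, the frequency `s / N` -/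
noncomputable def ctr (N n : ℕ) (c : ℂ) (s : ℝ) : ℂ := c * ee (s / N * (n + (N : ℝ) / 2))

/-! ## optimal sums -/

/-- OPD. Optimal sums with different frequencies exist. -/
def T_OPD : Prop := ∀ (th : ℝ) (lam : ℕ → ℝ) (q N n : ℕ), 0 < th → (∀ m, |lam m| ≤ 1) →
  1 ≤ q → 1 ≤ N → ∃ g : Ex, Opt th lam q N n g ∧ Dst q g

/-- BNM. Bounds for optimal sums. -/
def T_BNM : Prop := ∀ (th : ℝ) (lam : ℕ → ℝ) (q N n : ℕ) (g : Ex), 0 < th → (∀ m, |lam m| ≤ 1) →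
  1 ≤ q → 1 ≤ N → Opt th lam q N n g →
  2 * th * g.nm ≤ 1 + q / N ∧ 0 ≤ En th lam q N n ∧ En th lam q N n ≤ 1 + q / N ∧
  ar q N n (fun m => ‖(lam m : ℂ) - g.f m‖ ^ 2) ≤ 1 + q / N ∧
  ar q N n (fun m => ‖(lam m : ℂ) - g.f m‖) ≤ 1 + q / N

/-- UNQ. Two optimal sums have the same values. -/
def T_UNQ : Prop := ∀ (th : ℝ) (lam : ℕ → ℝ) (q N n : ℕ) (g h : Ex), 1 ≤ q → 1 ≤ N →
  Opt th lam q N n g → Opt th lam q N n h → ∀ m ∈ Ioc n (n + N), q ∣ m → g.f m = h.f m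

/-- PCA. Averages over the pieces. -/
def T_PCA : Prop := ∀ (q P L n : ℕ), 1 ≤ P → 1 ≤ L →
  (∀ F : ℕ → ℝ, ar q (P * L) n F = (∑ j ∈ range P, ar q L (n + j * L) F) / P) ∧
  (∀ F : ℕ → ℂ, ac q (P * L) n F = (∑ j ∈ range P, ac q L (n + j * L) F) / P) ∧
  (∀ (th : ℝ) (lam : ℕ → ℝ) (g : Ex),
    J th lam q (P * L) n g = (∑ j ∈ range P, J th lam q L (n + j * L) g) / P)

/-- PCS. The energies of the pieces and of the window. -/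
def T_PCS : Prop := ∀ (th : ℝ) (lam : ℕ → ℝ) (q P L n : ℕ) (g : Ex) (gj : ℕ → Ex), 0 < th →
  (∀ m, |lam m| ≤ 1) → 1 ≤ q → 1 ≤ P → 1 ≤ L → Opt th lam q (P * L) n g →
  (∀ j < P, Opt th lam q L (n + j * L) (gj j)) →
  gapq th lam q P L n = (∑ j ∈ range P, (d2 q L (n + j * L) g (gj j) +
    slk th lam q L (n + j * L) (gj j) g)) / P

/-! ## the residual of a regular window -/

/-- UNI. On a regular window the residual is uniform at the near-contact frequencies. -/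
def T_UNI : Prop := ∀ (th : ℝ) (lam : ℕ → ℝ) (q P L n : ℕ) (κ κ' β : ℝ) (g : Ex), 0 < th →
  th ≤ 1 → (∀ m, |lam m| ≤ 1) → 1 ≤ q → q ≤ L → 1 ≤ P → 0 ≤ κ → κ ≤ 1 → 0 ≤ κ' → κ' ≤ th →
  Opt th lam q (P * L) n g → gapq th lam q P L n ≤ κ ^ 2 →
  th - κ' ≤ ‖rs lam q (P * L) n g β‖ → ∀ (ψ : ℕ → ℂ) (A δ : ℝ),
    (∀ m ∈ Ioc n (n + P * L), ‖ψ m‖ ≤ A) → 0 ≤ δ →
    (∀ j < P, ∀ m ∈ Ioc (n + j * L) (n + j * L + L), ∀ m' ∈ Ioc (n + j * L) (n + j * L + L),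
      ‖ψ m - ψ m'‖ ≤ δ) →
    ‖ac q (P * L) n (fun m => ((lam m : ℂ) - g.f m) * ee (-(β * m)) * ψ m) -
      rs lam q (P * L) n g β * ac q (P * L) n ψ‖ ≤ A * (3 * √(κ + κ') + q / L) + 6 * δ

/-- GEX. The mean of an exponential. -/
def T_GEX : Prop := ∀ (q N n : ℕ) (γ : ℝ), 1 ≤ q → 1 ≤ N → 0 < nd (q * γ) →
  ‖ac q N n (fun m => ee (γ * m))‖ ≤ q / (2 * N * nd (q * γ))

/-- CUR. The curvature of the residual at the frequencies of the optimal sum. -/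
def T_CUR : Prop := ∀ th Lam : ℝ, 0 < th → th ≤ 1 → 1 ≤ Lam → ∃ (P₀ C : ℕ) (κ : ℝ), 1 ≤ P₀ ∧
  1 ≤ C ∧ 0 < κ ∧ κ ≤ 1 ∧ ∀ (lam : ℕ → ℝ) (q P L n : ℕ) (g : Ex), (∀ m, |lam m| ≤ 1) →
  1 ≤ q → C * q ≤ L → P₀ ≤ P → Opt th lam q (P * L) n g → gapq th lam q P L n ≤ κ ^ 2 →
  ∀ i < g.k, ∀ (s : ℝ) (b : ℤ), |s| ≤ Lam →
    ‖rs lam q (P * L) n g (g.a i + b / q + s / ((P * L : ℕ) : ℝ))‖ ≤
      th * (1 - 2 / 5 * min 1 (s ^ 2))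

/-- NCP. Two near-contact frequencies are very near to each other or far from each other. -/
def T_NCP : Prop := ∀ th d₁ : ℝ, 0 < th → th ≤ 1 → 0 < d₁ → d₁ ≤ 1 → ∃ κ' : ℝ, 0 < κ' ∧
  κ' ≤ th / 2 ∧ ∀ Lam : ℝ, 1 ≤ Lam → ∃ (P₀ L₀ : ℕ) (κ : ℝ), 1 ≤ P₀ ∧ 1 ≤ L₀ ∧ 0 < κ ∧ κ ≤ 1 ∧
  ∀ (lam : ℕ → ℝ) (P L n : ℕ) (g : Ex), (∀ m, |lam m| ≤ 1) →
  L₀ ≤ L → P₀ ≤ P → Opt th lam 1 (P * L) n g → gapq th lam 1 P L n ≤ κ ^ 2 →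
  ∀ β s : ℝ, |s| ≤ Lam → th - κ' ≤ ‖rs lam 1 (P * L) n g β‖ →
    th - κ' ≤ ‖rs lam 1 (P * L) n g (β + s / ((P * L : ℕ) : ℝ))‖ → |s| ≤ d₁

/-- BSL. The inequality of Bessel for separated frequencies. -/
def T_BSL : Prop := ∀ (q N n r : ℕ) (Lam : ℝ) (γ : ℕ → ℝ) (F : ℕ → ℂ), 1 ≤ q → 1 ≤ N →
  0 < Lam → (∀ i < r, ∀ l < r, i ≠ l → Lam * q / N ≤ nd (q * (γ i - γ l))) →
  ∑ i ∈ range r, ‖ac q N n (fun m => F m * ee (-(γ i * m)))‖ ^ 2 ≤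
    (1 + q / N + r / (2 * Lam)) * ar q N n (fun m => ‖F m‖ ^ 2)

/-- SEP. The frequencies of the optimal sum of a regular window are separated, there are few of
them. -/
def T_SEP : Prop := ∀ th Lam : ℝ, 0 < th → th ≤ 1 → 1 ≤ Lam → ∃ (P₀ C : ℕ) (κ : ℝ), 1 ≤ P₀ ∧
  1 ≤ C ∧ 0 < κ ∧ κ ≤ 1 ∧ ∀ (lam : ℕ → ℝ) (q P L n : ℕ) (g : Ex), (∀ m, |lam m| ≤ 1) →
  1 ≤ q → C * q ≤ L → P₀ ≤ P → Opt th lam q (P * L) n g → Dst q g →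
  gapq th lam q P L n ≤ κ ^ 2 →
  (∀ i < g.k, ∀ l < g.k, i ≠ l → Lam * q / ((P * L : ℕ) : ℝ) ≤ nd (q * (g.a i - g.a l))) ∧
  (g.k : ℝ) ≤ 5 / th ^ 2

/-- CLU. The clusters of near-contact frequencies. -/
def T_CLU : Prop := ∀ th d₁ : ℝ, 0 < th → th ≤ 1 → 0 < d₁ → d₁ ≤ 1 → ∃ κ' : ℝ, 0 < κ' ∧
  κ' ≤ th / 2 ∧ ∀ Lam : ℝ, 1 ≤ Lam → ∃ (P₀ L₀ : ℕ) (κ : ℝ), 1 ≤ P₀ ∧ 1 ≤ L₀ ∧ 0 < κ ∧ κ ≤ 1 ∧
  ∀ (lam : ℕ → ℝ) (P L n : ℕ) (g : Ex), (∀ m, |lam m| ≤ 1) →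
  L₀ ≤ L → P₀ ≤ P → Opt th lam 1 (P * L) n g → Dst 1 g → gapq th lam 1 P L n ≤ κ ^ 2 →
  ∃ (r : ℕ) (γ : ℕ → ℝ), (r : ℝ) ≤ 10 / th ^ 2 ∧ g.k ≤ r ∧ (∀ i < g.k, γ i = g.a i) ∧
    (∀ i < r, ∀ l < r, i ≠ l → Lam / ((P * L : ℕ) : ℝ) ≤ nd (γ i - γ l)) ∧
    ∀ β : ℝ, th - κ' ≤ ‖rs lam 1 (P * L) n g β‖ →
      ∃ i < r, nd (β - γ i) ≤ d₁ / ((P * L : ℕ) : ℝ)

/-! ## groups and tests -/

/-- GRM. The mean square of a sum of groups of two neighbouring exponentials. -/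
def T_GRM : Prop := ∃ C : ℝ, 0 < C ∧ ∀ (N n r : ℕ) (Lam : ℝ) (γ s : ℕ → ℝ) (c c' : ℕ → ℂ),
  1 ≤ N → C ≤ N → C * (r + 1) ≤ Lam → (∀ i < r, |s i| ≤ 1 / 10) →
  (∀ i < r, ∀ l < r, i ≠ l → Lam / N ≤ nd (γ i - γ l)) →
  1 / 16 * ∑ i ∈ range r, (‖ctr N n (c i) (s i) - c' i‖ + ‖c i‖ * |s i|) ^ 2 ≤
    ar 1 N n (fun m => ‖∑ i ∈ range r, (c i * ee ((γ i + s i / N) * m) -
      c' i * ee (γ i * m))‖ ^ 2)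

/-- BVT. The test of a group. -/
def T_BVT : Prop := ∀ (lam : ℕ → ℝ) (q N n : ℕ) (γ s : ℝ) (c c' : ℂ), (∀ m, |lam m| ≤ 1) →
  1 ≤ q → q ≤ N → 
  ‖ac 1 N n (fun m => (EB.D q m : ℂ) * lam m * (starRingEnd ℂ) (c * ee ((γ + s / N) * m) -
    c' * ee (γ * m)))‖ ≤ (‖ctr N n c s - c'‖ + 7 * ‖c‖ * |s|) * zA lam q N n γ

/-- KER. The kernels of a prime. -/
def T_KER : Prop := ∀ (q N n : ℕ) (γ : ℝ), 1 ≤ q → q ≤ N →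
  ‖ac 1 N n (fun m => (EB.D q m : ℂ))‖ ≤ q / N ∧
  (0 < nd (q * γ) → 
    ‖ac 1 N n (fun m => (EB.D q m : ℂ) * ee (γ * m))‖ ≤ q / (N * nd (q * γ))) ∧
  ∀ ζ : ℝ, 0 < ζ → (∀ b : ℤ, ¬ ((q : ℤ) ∣ b) → ζ / N ≤ nd (γ - (b : ℝ) / q)) →
    ‖ac 1 N n (fun m => (EB.D q m : ℂ) * ee (γ * m))‖ ≤ q / (2 * ζ)

/-- DQG. The tests of the primes of a level with products of two exponentials are small. -/
def T_DQG : Prop := ∃ m₁ : ℕ, ∀ (m n : ℕ) (g h : Ex), m₁ ≤ m →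
  ∑ q ∈ EB.QQ m, 1 / (q : ℝ) *
    ‖ac 1 (2 ^ m) n (fun x => (EB.D q x : ℂ) * g.f x * (starRingEnd ℂ) (h.f x))‖ ≤
      g.nm * h.nm * (1 / 2) ^ (m / 1000)

/-- SAZ. The worst frequency and the worst weights. -/
def T_SAZ : Prop := ∀ (lam : ℕ → ℝ) (w n : ℕ) (γ : ℝ), 400 ≤ w → (∀ m, |lam m| ≤ 1) →
  0 ≤ SA lam w n ∧ ∑ q ∈ EB.QQ w, 1 / (q : ℝ) * zA lam q (2 ^ w) n γ ^ 2 ≤ SA lam w n ∧
  ∀ (v : ℕ → ℕ → ℂ), (∀ q ∈ EB.QQ w, EB.BV (2 ^ w) n (v q)) →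
    ∑ q ∈ EB.QQ w, 1 / (q : ℝ) * EB.zz lam q (2 ^ w) n γ (v q) ^ 2 ≤ SA lam w n

/-- BVN. The difference of the optimal sum of a regular window and of any sum, as a sum of
exponentials with weights of bounded variation. -/
def T_BVN : Prop := ∀ th A : ℝ, 0 < th → th ≤ 1 → 0 ≤ A → ∃ (P₀ L₀ : ℕ) (κ C : ℝ), 1 ≤ P₀ ∧
  1 ≤ L₀ ∧ 0 < κ ∧ κ ≤ 1 ∧ 0 < C ∧ ∀ (lam : ℕ → ℝ) (P L n : ℕ) (g G : Ex),
  (∀ m, |lam m| ≤ 1) → L₀ ≤ L → P₀ ≤ P → Opt th lam 1 (P * L) n g → Dst 1 g →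
  gapq th lam 1 P L n ≤ κ ^ 2 → G.nm ≤ A →
  ∃ (K : ℕ) (w γ : ℕ → ℝ), (∀ i, 0 ≤ w i) ∧
    (∑ i ∈ range K, w i) ^ 2 ≤ C * (En th lam 1 (P * L) n - J th lam 1 (P * L) n G) ∧
    ∀ q : ℕ, 1 ≤ q → q ≤ P * L →
      ‖tx lam q (P * L) n g - tx lam q (P * L) n G‖ ≤
        ∑ i ∈ range K, w i * zA lam q (P * L) n (γ i)

/-! ## one window, all primes of the level -/

/-- the bad events of the window and the prime -/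
noncomputable def bad (th κ c₁ δ : ℝ) (p₀ : ℕ) (lam : ℕ → ℝ) (q w n : ℕ) : ℝ :=
  EB.ind (κ < gap th lam (2 ^ p₀) (2 ^ (w - p₀)) n) +
    EB.ind (κ < gapq th lam q (2 ^ p₀) (2 ^ (w - p₀)) n) +
    EB.ind (JF lam q (2 ^ w) n (th / 2) δ c₁)

/-- ONG. The inequality for a window and its pieces. -/
def T_ONG : Prop := ∀ th : ℝ, 0 < th → th ≤ 1 → ∃ (κ c₁ δ C : ℝ) (p₀ m₁ : ℕ),
  0 < κ ∧ 0 < c₁ ∧ 0 < δ ∧ 0 < C ∧ 4 * p₀ ≤ m₁ ∧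
  ∀ (η : ℝ) (P m n : ℕ) (lam : ℕ → ℝ), 0 < η → η ≤ 1 → 1 ≤ P → m₁ ≤ m → (∀ m, |lam m| ≤ 1) →
    ∑ q ∈ EB.QQ m, 1 / (q : ℝ) * gapq th lam q P (2 ^ m) n ≤
      (1 + η) * (∑ q ∈ EB.QQ m, 1 / (q : ℝ)) * gap th lam P (2 ^ m) n +
      C / η * ((∑ j ∈ range P, (SA lam m (n + j * 2 ^ m) + ∑ q ∈ EB.QQ m, 1 / (q : ℝ) *
        bad th κ c₁ δ p₀ lam q m (n + j * 2 ^ m))) / P + (1 / 2) ^ (m / 1000))

/-- CHW. The changes of the energy of a window. -/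
def T_CHW : Prop := ∀ th : ℝ, 0 < th → th ≤ 1 → ∃ (κ c₁ δ C : ℝ) (p₀ m₁ : ℕ),
  0 < κ ∧ 0 < c₁ ∧ 0 < δ ∧ 0 < C ∧ 4 * p₀ ≤ m₁ ∧
  ∀ (m n : ℕ) (lam : ℕ → ℝ), m₁ ≤ m → (∀ m, |lam m| ≤ 1) →
    ∑ q ∈ EB.QQ m, 1 / (q : ℝ) * |En th lam q (2 ^ m) n - En th lam 1 (2 ^ m) n| ≤
      C * (√(SA lam m n) + SA lam m n + ∑ q ∈ EB.QQ m, 1 / (q : ℝ) *
        bad th κ c₁ δ p₀ lam q m n + (1 / 2) ^ (m / 1000))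

end Pool.Agent.H6.GS2
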